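import Pool.Agent.helper93.TV.Spec3

set_option autoImplicit false

namespace Pool.Agent.helper93.TV

open BigOperators Finset

private theorem CC1_gen (C : SkelCat) (o : Fin C.r) (D : FD (Fin C.r) (Fin C.n))
    (h1 : D.s1 = C.s1) (h2 : D.s2 = C.s2) (ht : D.t = C.t) (ho : D.o = o) (S : Set (Fin C.r))
    (b : Fin C.r) : D.Gen S b ↔ C.Gen o S b := by
  constructor
  · intro h
    induction h with
    | unit =>
      rw [ho]
      exact SkelCat.Gen.unit
    | mul v _ hv ih =>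
      rw [ht]
      rw [h1] at ih
      rw [h2] at hv
      exact SkelCat.Gen.mul v ih hv
  · intro h
    induction h with
    | unit =>
      rw [← ho]
      exact FD.Gen.unit
    | mul v _ hv ih =>
      rw [← ht]
      rw [← h1] at ih
      rw [← h2] at hv
      exact FD.Gen.mul v ih hv

private theorem CC1_dim (C : SkelCat) (D : FD (Fin C.r) (Fin C.n))
    (h1 : D.s1 = C.s1) (h2 : D.s2 = C.s2) (ht : D.t = C.t) (d : Fin C.r → ℝ) (h : C.IsDim d) :
    D.IsDim d := by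
  refine ⟨h.1, fun a b => ?_⟩
  rw [← h.2 a b, h1, h2, ht]

private theorem CC1_kap (C : SkelCat) (D : FD (Fin C.r) (Fin C.n))
    (h1 : D.s1 = C.s1) (h2 : D.s2 = C.s2) (ht : D.t = C.t) (X : Finset (Fin C.r)) :
    D.kap X = C.kappa X := by
  have hm : ∀ a b c, D.mlt a b c = C.mult a b c := by
    intro a b c
    unfold FD.mlt SkelCat.mult
    rw [h1, h2, ht]
  unfold FD.kap SkelCat.kappa
  simp only [hm]

private theorem CC1_card (M n c k : ℕ) (hM : 2 ≤ M) (hn : n ≤ M) (hc : c ≤ 2 * k + 1)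
    (hk : 2 ^ k ≤ n ^ 2) : (c : ℝ) ≤ 8 * Real.log M := by
  have hl2 : 0.6931471803 < Real.log 2 := Real.log_two_gt_d9
  have hM2 : (2 : ℝ) ≤ M := by exact_mod_cast hM
  have hlM : Real.log 2 ≤ Real.log M := Real.log_le_log (by norm_num) hM2
  have h1 : (2 : ℝ) ^ k ≤ (M : ℝ) ^ 2 := by
    have h2 : (2 : ℕ) ^ k ≤ M ^ 2 := hk.trans (Nat.pow_le_pow_left hn 2)
    exact_mod_cast h2
  have h2 := Real.log_le_log (by positivity) h1
  rw [Real.log_pow, Real.log_pow] at h2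
  push_cast at h2
  have h3 : (c : ℝ) ≤ 2 * k + 1 := by exact_mod_cast hc
  have hk0 : (0 : ℝ) ≤ k := Nat.cast_nonneg k
  nlinarith

/-- the number of members over one fusion ring -/
private theorem CC1_fib (hFDO : FDO_out) (hRG : RG_out) (hKD : KD_out) (hGR : GR_out)
    (hAA : AA_out) (M : ℕ) (Y : ℝ) (hM : 2 ≤ M) (C : SkelCat) (hn : C.n ≤ M) (hS : C.Small Y)
    (k : ℕ) (E : Fin k → SkelCat) (hE : ∀ i, (E i).UFC) (hr : ∀ i, (E i).ring = C.ring)
    (hne : ∀ i j, i ≠ j → ¬ (E i).Equivalent (E j)) :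
    (k : ℝ) ≤ Real.exp (1536 * Y * (Real.log M) ^ 3) := by
  obtain ⟨o, d, z, ⟨st, hU⟩, hd, hz, hgen, hY⟩ := hS
  obtain ⟨D, h1, h2, ht, ho, hdu, hUFS⟩ := hFDO C o st hU
  have hDR : D.Rg := hRG _ _ D C.F hUFS
  have hDd := CC1_dim C D h1 h2 ht d hd
  obtain ⟨X, k0, hoX, hduX, hzX, hgX, hcX, hkX⟩ := hGR _ _ D d z hDR hDd hz
    (fun b => (CC1_gen C o D h1 h2 ht ho _ b).2 (hgen b))
  have hkap := (hKD _ _ D d hDR hDd).2.2 X z hzX
  rw [Fintype.card_fin] at hkap hkX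
  have hcard := CC1_card M C.n X.card k0 hM hn hcX hkX
  have hM2 : (2 : ℝ) ≤ M := by exact_mod_cast hM
  have hlM : 0 ≤ Real.log M := Real.log_nonneg (by linarith)
  have hY0 : 0 ≤ Y := le_trans (by positivity) hY
  have hkapY : (C.kappa X : ℝ) ≤ 64 * (Real.log M) ^ 2 * Y := by
    rw [← CC1_kap C D h1 h2 ht X]
    refine hkap.trans ?_
    have e1 : (X.card : ℝ) ^ 2 ≤ (8 * Real.log M) ^ 2 := pow_le_pow_left₀ (by positivity) hcard 2
    calc (X.card : ℝ) ^ 2 * ((C.r : ℝ) * z ^ 4) ≤ (8 * Real.log M) ^ 2 * Y :=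
          mul_le_mul e1 hY (by positivity) (by positivity)
      _ = 64 * (Real.log M) ^ 2 * Y := by ring
  have hA := hAA C o st X M hU (by rw [← ho]; exact hoX) (by rw [← hdu]; exact hduX)
    (fun b => (CC1_gen C o D h1 h2 ht ho _ b).1 (hgX b)) hn hM k E hE hr hne
  have hA' : (k : ℝ) ≤ (M : ℝ) ^ (24 * C.kappa X) := by exact_mod_cast hA
  refine hA'.trans ?_
  have hM0 : (0 : ℝ) < M := by linarith
  have e2 : (M : ℝ) ^ (24 * C.kappa X) = Real.exp (((24 * C.kappa X : ℕ) : ℝ) * Real.log M) := by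
    rw [Real.exp_nat_mul, Real.exp_log hM0]
  rw [e2]
  refine Real.exp_le_exp.2 ?_
  push_cast
  calc 24 * (C.kappa X : ℝ) * Real.log M ≤ 24 * (64 * (Real.log M) ^ 2 * Y) * Real.log M := by
        gcongr
    _ = 1536 * Y * (Real.log M) ^ 3 := by ring

theorem CC1 : CC1_stmt := by
  intro hFDO hRG _ _ hKD hGR hAA hFIB
  obtain ⟨K₀, hK₀, hF⟩ := hFIB
  refine ⟨2 * K₀ + 1536, ?_⟩
  intro M Y hM k E hE hne hn hS
  rcases Nat.eq_zero_or_pos k with hk | hk
  · subst hk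
    simp only [Nat.cast_zero]
    exact (Real.exp_pos _).le
  have hY0 : 0 ≤ Y := by
    obtain ⟨o, d, z, _, _, hz, _, hY⟩ := hS ⟨0, hk⟩
    exact le_trans (by positivity) hY
  have hM2 : (2 : ℝ) ≤ M := by exact_mod_cast hM
  have hl2 : 0.6931471803 < Real.log 2 := Real.log_two_gt_d9
  have hlM2 : Real.log 2 ≤ Real.log M := Real.log_le_log (by norm_num) hM2
  have hlM : 0 ≤ Real.log M := Real.log_nonneg (by linarith)
  have hfib : ∀ i, (univ.filter fun j => (E j).ring = (E i).ring).card ≤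
      ⌊Real.exp (1536 * Y * (Real.log M) ^ 3)⌋₊ := by
    intro i
    refine Nat.le_floor ?_
    set S := univ.filter fun j => (E j).ring = (E i).ring with hSdef
    have e := S.equivFin
    refine CC1_fib hFDO hRG hKD hGR hAA M Y hM (E i) (hn i) (hS i) S.card
      (fun l => E (e.symm l)) (fun l => hE _) (fun l => ?_) (fun l l' hl => ?_)
    · exact (Finset.mem_filter.1 (e.symm l).2).2
    · refine hne _ _ fun h => hl ?_
      exact e.symm.injective (Subtype.ext h)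
  have h := hF k E hE M _ hM hn hfib
  have hb : ((⌊Real.exp (1536 * Y * (Real.log M) ^ 3)⌋₊ : ℕ) : ℝ) ≤
      Real.exp (1536 * Y * (Real.log M) ^ 3) := Nat.floor_le (Real.exp_pos _).le
  refine h.trans ?_
  refine (mul_le_mul_of_nonneg_left hb (Real.exp_pos _).le).trans ?_
  rw [← Real.exp_add]
  refine Real.exp_le_exp.2 ?_
  have hP : (0 : ℝ) ≤ (M : ℝ) ^ (7 / 8 : ℝ) := by positivity
  have e1 : (Real.log M) ^ 2 ≤ 2 * (Real.log M) ^ 3 := by
    have : (0 : ℝ) ≤ (Real.log M) ^ 2 := by positivity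
    nlinarith
  have e2 : K₀ * (M : ℝ) ^ (7 / 8 : ℝ) * (Real.log M) ^ 2 ≤
      K₀ * (M : ℝ) ^ (7 / 8 : ℝ) * (2 * (Real.log M) ^ 3) :=
    mul_le_mul_of_nonneg_left e1 (by positivity)
  have e3 : 0 ≤ 2 * K₀ * Y * (Real.log M) ^ 3 := by positivity
  have e4 : 0 ≤ 1536 * (M : ℝ) ^ (7 / 8 : ℝ) * (Real.log M) ^ 3 := by positivity
  nlinarith

end Pool.Agent.helper93.TV
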